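import Pool.Agent.helper48.EXI.Spec2

/-!
# Block EXI of project NPT (MP_8f32d0_ag), row KH1: the echelon basis
-/

set_option autoImplicit false

namespace EXI

open scoped Classical
open AN

noncomputable section

/-- the orders: even, or at least `2g+1` -/
def KH1_S (g : ℕ) : Set ℕ := {r | Even r ∨ 2 * g + 1 ≤ r}

/-- the generators of `VV y`, indexed by their orders -/
def KH1_w {L : Type} [Field L] (g : ℕ) (y : LS L) (r : ℕ) : LS L :=
  if Even r then mono (-(r : ℤ)) 1 else mono (-((r : ℤ) - (2 * (g : ℤ) + 1))) 1 * y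

theorem KH1_ord {L : Type} [Field L] {g : ℕ} {t : Fin (2 * g + 1) → L} {y : LS L} (hy : IsY t y) (r : ℕ) :
    KH1_w g y r ∈ GE L (-(r : ℤ)) ∧ cf (KH1_w g y r) (-(r : ℤ)) ≠ 0 := by
  unfold KH1_w
  split_ifs with h
  · refine ⟨mono_mem_GE _ _, ?_⟩
    rw [cf_mono, if_pos rfl]
    exact one_ne_zero
  · have e : -((r : ℤ) - (2 * (g : ℤ) + 1)) + -(2 * (g : ℤ) + 1) = -(r : ℤ) := by ring
    have h1 := GE_mul (mono_mem_GE (R := L) (-((r : ℤ) - (2 * (g : ℤ) + 1))) 1) hy.ord
    have h2 := cf_mul_lead (mono_mem_GE (R := L) (-((r : ℤ) - (2 * (g : ℤ) + 1))) 1) hy.ord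
    rw [e] at h1 h2
    refine ⟨h1, ?_⟩
    rw [h2, cf_mono, if_pos rfl, one_mul]
    exact hy.lead.ne_zero

theorem KH1_span {L : Type} [Field L] (g : ℕ) (y : LS L) :
    VV y = Submodule.span L (KH1_w g y '' KH1_S g) := by
  unfold VV
  refine congrArg (Submodule.span L) (Set.ext fun z => ?_)
  constructor
  · rintro ⟨n, hn | hn⟩
    · refine ⟨2 * n, Or.inl ⟨n, by ring⟩, ?_⟩
      unfold KH1_w
      rw [if_pos ⟨n, by ring⟩, hn]
      push_cast
      rfl
    · refine ⟨2 * n + (2 * g + 1), Or.inr (by omega), ?_⟩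
      unfold KH1_w
      rw [if_neg (by rw [Nat.not_even_iff_odd]; exact ⟨n + g, by ring⟩), hn]
      have e : -(((2 * n + (2 * g + 1) : ℕ) : ℤ) - (2 * (g : ℤ) + 1)) = -(2 * (n : ℤ)) := by
        push_cast
        ring
      rw [e]
  · rintro ⟨r, hr, rfl⟩
    unfold KH1_w
    split_ifs with h
    · obtain ⟨n, hn⟩ := h
      refine ⟨n, Or.inl ?_⟩
      have e : (r : ℤ) = 2 * (n : ℤ) := by
        rw [hn]
        push_cast
        ring
      rw [e]
    · have hle : 2 * g + 1 ≤ r := hr.resolve_left h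
      rw [Nat.not_even_iff_odd] at h
      obtain ⟨m, hm⟩ := h
      refine ⟨m - g, Or.inr ?_⟩
      have e : (r : ℤ) - (2 * (g : ℤ) + 1) = 2 * ((m - g : ℕ) : ℤ) := by
        have : g ≤ m := by omega
        rw [hm]
        push_cast [this]
        ring
      rw [e]

theorem KH1_card (g m : ℕ) (hm : 2 * g ≤ m) :
    ((Finset.range (m + 1)).filter (fun r => r ∈ KH1_S g)).card + g + 0 = m + 1 := by
  have h1 := Finset.card_filter_add_card_filter_not (s := Finset.range (m + 1)) (fun r => r ∈ KH1_S g)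
  have h2 : (Finset.range (m + 1)).filter (fun r => ¬ r ∈ KH1_S g) = (Finset.range g).image (fun i => 2 * i + 1) := by
    ext r
    rw [Finset.mem_filter, Finset.mem_range, Finset.mem_image]
    constructor
    · rintro ⟨_, h4⟩
      have h5 : ¬ (Even r ∨ 2 * g + 1 ≤ r) := h4
      rw [not_or, Nat.not_even_iff_odd] at h5
      obtain ⟨⟨i, hi⟩, h6⟩ := h5
      exact ⟨i, Finset.mem_range.2 (by omega), hi.symm⟩
    · rintro ⟨i, hi, rfl⟩
      rw [Finset.mem_range] at hi
      refine ⟨by omega, ?_⟩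
      rintro (h4 | h4)
      · obtain ⟨j, hj⟩ := h4
        omega
      · omega
  rw [h2, Finset.card_image_of_injective _ (fun a b hab => by
    have : 2 * a + 1 = 2 * b + 1 := hab
    omega), Finset.card_range, Finset.card_range] at h1
  omega

theorem KH1 (hWRO : WRO_stmt) (hFE0 : FE0_stmt) : KH1_stmt := by
  intro L _ g t y hy
  obtain ⟨hW1, hW2, hW3⟩ := hWRO L (KH1_S g) (KH1_w g y) (fun r _ => KH1_ord hy r) (VV y) (KH1_span g y)
  obtain ⟨γ, a, hinj, _, haV, hech, hgap, hspan⟩ := hFE0 L (VV y) 0 g (by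
      have e : (1 : ℤ) - ((0 : ℕ) : ℤ) = 1 := by norm_num
      rw [e]
      exact hW1)
    ⟨2 * g, fun m hm => by
      rw [hW3 m]
      exact KH1_card g m hm⟩
  have h1V : (1 : LS L) ∈ VV y := by
    refine Submodule.subset_span ⟨0, Or.inl ?_⟩
    apply LS.ext
    intro n
    rw [cf_one, cf_mono]
    norm_num
  have hγ : ∀ i, 0 < γ i := by
    intro i
    by_contra h0
    have h0' : γ i = 0 := by omega
    have h1 := hgap 0 ⟨i, h0'⟩ 1 h1V (by
      intro n hn
      have hn' : n < 0 := by simpa using hn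
      rw [cf_one, if_neg (by omega)])
    rw [cf_one, if_pos (by norm_num)] at h1
    exact one_ne_zero h1
  have hG0 : ¬ Gp γ 0 := by
    rintro ⟨i, hi⟩
    have := hγ i
    omega
  have hzero : ∀ v ∈ VV y, (∀ r, ¬ Gp γ r → cf v (-(r : ℤ)) = 0) → v = 0 := by
    intro v hv h
    by_contra hne
    obtain ⟨r, _, h1, h2⟩ := hW2 v hv hne
    by_cases hr : Gp γ r
    · exact h2 (hgap r hr v hv h1)
    · exact h2 (h r hr)
  refine ⟨γ, a, hinj, hγ, ?_, fun r r' hr hr' => hech r r' (Nat.zero_le _) (Nat.zero_le _) hr hr', ?_⟩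
  · have h1 := hzero (a 0 - 1) ((VV y).sub_mem (haV 0 le_rfl hG0) h1V) (by
      intro r hr
      rw [cf_sub, hech 0 r (Nat.zero_le _) (Nat.zero_le _) hG0 hr, cf_one]
      by_cases h0 : r = 0
      · subst h0
        simp
      · rw [if_neg (by omega), if_neg (by omega), sub_self])
    exact sub_eq_zero.1 h1
  · rw [hspan]
    unfold AA
    refine congrArg (Submodule.span L) (Set.ext fun z => ?_)
    constructor
    · rintro ⟨r, hr, rfl⟩
      exact ⟨r, Nat.zero_le _, hr, rfl⟩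
    · rintro ⟨r, _, hr, rfl⟩
      exact ⟨r, hr, rfl⟩

end

end EXI
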